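import Pool.Agent.MP_914aa3_co.Moves

namespace Pool.Agent.MP_914aa3_co

theorem Move.card_lt {par : ℤ} {P Q : Finset ℤ} (h : Move par P Q) : Q.card < P.card := by
  obtain ⟨a, ha, -, d, hd, j, hj, hall, rfl⟩ := h
  have h0 := (hall 0 (by omega)).1
  have hne : a + d * (2 * ((0 : ℕ) : ℤ) + 1) ≠ a := by rcases hd with rfl | rfl <;> simp
  have hsub : P.erase a \ (Finset.range j).image (fun i : ℕ => a + d * (2 * i + 1)) ⊆
      (P.erase a).erase (a + d * (2 * ((0 : ℕ) : ℤ) + 1)) := by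
    intro x hx
    rw [Finset.mem_sdiff] at hx
    refine Finset.mem_erase.2 ⟨?_, hx.1⟩
    rintro rfl
    exact hx.2 (Finset.mem_image.2 ⟨0, Finset.mem_range.2 (by omega), rfl⟩)
  have h1 := Finset.card_le_card hsub
  have h2 := Finset.card_erase_of_mem (Finset.mem_erase.2 ⟨hne, h0⟩)
  have h3 := Finset.card_erase_of_mem ha
  have h4 : 0 < (P.erase a).card := Finset.card_pos.2 ⟨_, Finset.mem_erase.2 ⟨hne, h0⟩⟩
  have h5 := Finset.card_insert_le (a + d * (2 * j))
    (P.erase a \ (Finset.range j).image (fun i : ℕ => a + d * (2 * i + 1)))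
  omega

theorem SumMove.card_lt {par : ℤ} {G H : Finset ℤ × Finset ℤ} (h : SumMove par G H) :
    H.1.card + H.2.card < G.1.card + G.2.card := by
  rcases h with ⟨h, e⟩ | ⟨e, h⟩
  · have := h.card_lt; rw [e]; omega
  · have := h.card_lt; rw [e]; omega

end Pool.Agent.MP_914aa3_co
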