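import Pool.Agent.MP_914aa3_co.Defs

namespace Pool.Agent.MP_914aa3_co

def occ (x : ℕ) (z : ℤ) : Bool := decide (-4 ≤ z) && decide (z < 22) && x.testBit (z + 4).toNat

noncomputable def toFin (x : ℕ) : Finset ℤ := (Finset.Ico (-4 : ℤ) 22).filter fun z => occ x z = true

theorem mem_toFin (x : ℕ) (z : ℤ) : z ∈ toFin x ↔ occ x z = true := by
  unfold toFin
  rw [Finset.mem_filter, Finset.mem_Ico]
  constructor
  · exact fun h => h.2
  · intro h
    refine ⟨?_, h⟩
    unfold occ at h
    simp only [Bool.and_eq_true, decide_eq_true_eq] at h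
    exact h.1

def ofB (f : ℕ → Bool) : ℕ → ℕ
  | 0 => 0
  | n + 1 => ofB f n + (if f n then 2 ^ n else 0)

theorem ofB_lt (f : ℕ → Bool) (n : ℕ) : ofB f n < 2 ^ n := by
  induction n with
  | zero => simp [ofB]
  | succ n ih =>
    unfold ofB
    split_ifs <;> omega

theorem testBit_ofB (f : ℕ → Bool) (n i : ℕ) :
    (ofB f n).testBit i = (decide (i < n) && f i) := by
  induction n with
  | zero => simp [ofB]
  | succ n ih =>
    have hl := ofB_lt f n
    unfold ofB
    by_cases hf : f n = true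
    · rw [if_pos hf, add_comm]
      rcases lt_trichotomy i n with h | h | h
      · rw [Nat.testBit_two_pow_add_gt h, ih]
        simp [h, Nat.lt_succ_of_lt h]
      · subst h
        rw [Nat.testBit_two_pow_add_eq, Nat.testBit_lt_two_pow hl]
        simp [hf]
      · have h2 : 2 ^ n + ofB f n < 2 ^ i := by
          have : 2 ^ (n + 1) ≤ 2 ^ i := Nat.pow_le_pow_right (by norm_num) h
          omega
        rw [Nat.testBit_lt_two_pow h2]
        have : ¬ i < n + 1 := by omega
        simp [this]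
    · rw [if_neg hf, add_zero, ih]
      rcases lt_trichotomy i n with h | h | h
      · simp [h, Nat.lt_succ_of_lt h]
      · subst h; simp [hf]
      · have h1 : ¬ i < n := by omega
        have h2 : ¬ i < n + 1 := by omega
        simp [h1, h2]

def ok (x : ℕ) (a d : ℤ) (j : ℕ) : Bool :=
  (List.range j).all fun i => occ x (a + d * (2 * i + 1)) && !occ x (a + d * (2 * i + 2))

def resF (x : ℕ) (a d : ℤ) (j : ℕ) (z : ℤ) : Bool :=
  decide (z = a + d * (2 * j)) ||
    (occ x z && decide (z ≠ a) && (List.range j).all fun i => decide (z ≠ a + d * (2 * i + 1)))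

def res (x : ℕ) (a d : ℤ) (j : ℕ) : ℕ := ofB (fun i => resF x a d j ((i : ℤ) - 4)) 26

def cells : List ℤ := (List.range 26).map fun i : ℕ => (i : ℤ) - 4

def moves (par : ℤ) (x : ℕ) : List ℕ :=
  (cells.filter fun a => occ x a && decide (a % 2 = par)).flatMap fun a =>
    ([1, -1] : List ℤ).flatMap fun d =>
      (((List.range 13).map (· + 1)).filter fun j => ok x a d j).map fun j => res x a d j

def good (x : ℕ) : Bool := !occ x (-4) && !occ x 21

theorem occ_bounds {x : ℕ} (hg : good x = true) {z : ℤ} (hz : occ x z = true) :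
    -3 ≤ z ∧ z ≤ 20 := by
  have h1 : -4 ≤ z ∧ z < 22 := by
    unfold occ at hz
    simp only [Bool.and_eq_true, decide_eq_true_eq] at hz
    exact hz.1
  unfold good at hg
  simp only [Bool.and_eq_true, Bool.not_eq_true'] at hg
  constructor
  · by_contra h
    have : z = -4 := by omega
    subst this
    rw [hg.1] at hz; exact Bool.noConfusion hz
  · by_contra h
    have : z = 21 := by omega
    subst this
    rw [hg.2] at hz; exact Bool.noConfusion hz

theorem ok_iff (x : ℕ) (a d : ℤ) (j : ℕ) : ok x a d j = true ↔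
    ∀ i : ℕ, i < j → a + d * (2 * i + 1) ∈ toFin x ∧ a + d * (2 * i + 2) ∉ toFin x := by
  unfold ok
  simp only [List.all_eq_true, List.mem_range, Bool.and_eq_true, Bool.not_eq_true', mem_toFin,
    Bool.not_eq_true]

theorem toFin_res {x : ℕ} (hg : good x = true) {a d : ℤ} (hd : d = 1 ∨ d = -1) {j : ℕ}
    (hj : 1 ≤ j) (hok : ok x a d j = true) :
    toFin (res x a d j) = insert (a + d * (2 * j))
      ((toFin x).erase a \ (Finset.range j).image fun i : ℕ => a + d * (2 * i + 1)) := by
  have hl := ((ok_iff x a d j).1 hok (j - 1) (by omega)).1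
  rw [mem_toFin] at hl
  have hb := occ_bounds hg hl
  have hcast : ((j - 1 : ℕ) : ℤ) = (j : ℤ) - 1 := by omega
  rw [hcast] at hb
  have hland : -4 ≤ a + d * (2 * j) ∧ a + d * (2 * j) < 22 := by
    rcases hd with rfl | rfl <;> omega
  ext z
  have key : resF x a d j z = true ↔ z ∈ insert (a + d * (2 * j))
      ((toFin x).erase a \ (Finset.range j).image fun i : ℕ => a + d * (2 * i + 1)) := by
    unfold resF
    simp only [Bool.or_eq_true, decide_eq_true_eq, Bool.and_eq_true, List.all_eq_true,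
      List.mem_range, Finset.mem_insert, Finset.mem_sdiff, Finset.mem_erase, mem_toFin,
      Finset.mem_image, Finset.mem_range, not_exists, not_and]
    constructor
    · rintro (h | ⟨⟨h1, h2⟩, h3⟩)
      · exact Or.inl h
      · exact Or.inr ⟨⟨h2, h1⟩, fun i hi e => h3 i hi e.symm⟩
    · rintro (h | ⟨⟨h1, h2⟩, h3⟩)
      · exact Or.inl h
      · exact Or.inr ⟨⟨h2, h1⟩, fun i hi e => h3 i hi e.symm⟩
  rw [mem_toFin, ← key]
  unfold occ res
  rw [testBit_ofB]
  constructor
  · intro h
    simp only [Bool.and_eq_true, decide_eq_true_eq] at h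
    have e : (((z + 4).toNat : ℕ) : ℤ) - 4 = z := by omega
    have := h.2.2
    rwa [e] at this
  · intro h
    have hz : -4 ≤ z ∧ z < 22 := by
      unfold resF at h
      simp only [Bool.or_eq_true, decide_eq_true_eq, Bool.and_eq_true] at h
      rcases h with h | h
      · rw [h]; exact hland
      · have := occ_bounds hg h.1.1
        omega
    have e : (((z + 4).toNat : ℕ) : ℤ) - 4 = z := by omega
    simp only [Bool.and_eq_true, decide_eq_true_eq]
    refine ⟨⟨hz.1, hz.2⟩, by omega, ?_⟩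
    rw [e]; exact h

theorem mem_cells {z : ℤ} (h : -4 ≤ z ∧ z < 22) : z ∈ cells := by
  unfold cells
  exact List.mem_map.2 ⟨(z + 4).toNat, List.mem_range.2 (by omega), by omega⟩

theorem moves_complete {x : ℕ} (hg : good x = true) {par : ℤ} {Q : Finset ℤ}
    (h : Move par (toFin x) Q) : ∃ y ∈ moves par x, Q = toFin y := by
  obtain ⟨a, ha, hpar, d, hd, j, hj, hall, rfl⟩ := h
  have hok := (ok_iff x a d j).2 hall
  refine ⟨res x a d j, ?_, (toFin_res hg hd hj hok).symm⟩
  rw [mem_toFin] at ha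
  have hba := occ_bounds hg ha
  have hl := (hall (j - 1) (by omega)).1
  rw [mem_toFin] at hl
  have hb := occ_bounds hg hl
  have hcast : ((j - 1 : ℕ) : ℤ) = (j : ℤ) - 1 := by omega
  rw [hcast] at hb
  have hj13 : j ≤ 13 := by rcases hd with rfl | rfl <;> omega
  unfold moves
  refine List.mem_flatMap.2 ⟨a, List.mem_filter.2 ⟨mem_cells (by omega), by simp [ha, hpar]⟩, ?_⟩
  refine List.mem_flatMap.2 ⟨d, by rcases hd with rfl | rfl <;> simp, ?_⟩
  refine List.mem_map.2 ⟨j, List.mem_filter.2 ⟨?_, hok⟩, rfl⟩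
  exact List.mem_map.2 ⟨j - 1, List.mem_range.2 (by omega), by omega⟩

theorem moves_sound {x : ℕ} (hg : good x = true) {par : ℤ} {y : ℕ} (h : y ∈ moves par x) :
    Move par (toFin x) (toFin y) := by
  unfold moves at h
  obtain ⟨a, ha, h⟩ := List.mem_flatMap.1 h
  obtain ⟨d, hd, h⟩ := List.mem_flatMap.1 h
  obtain ⟨j, hj, rfl⟩ := List.mem_map.1 h
  have ha2 := (List.mem_filter.1 ha).2
  simp only [Bool.and_eq_true, decide_eq_true_eq] at ha2
  have hd2 : d = 1 ∨ d = -1 := by simpa using hd
  obtain ⟨hj1, hok⟩ := List.mem_filter.1 hj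
  obtain ⟨j', -, rfl⟩ := List.mem_map.1 hj1
  exact ⟨a, (mem_toFin x a).2 ha2.1, ha2.2, d, hd2, j' + 1, by omega, (ok_iff x a d _).1 hok,
    toFin_res hg hd2 (by omega) hok⟩

theorem not_move_empty (par : ℤ) (Q : Finset ℤ) : ¬ Move par ∅ Q := by
  rintro ⟨a, ha, -⟩
  simp at ha

/-- membership of a triple in a list of triples -/
def memT (l : List (ℕ × ℕ × ℕ)) (w a c : ℕ) : Bool :=
  l.any fun t => Nat.beq t.1 w && Nat.beq t.2.1 a && Nat.beq t.2.2 c

theorem memT_iff {l : List (ℕ × ℕ × ℕ)} {w a c : ℕ} (h : memT l w a c = true) : (w, a, c) ∈ l := by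
  unfold memT at h
  obtain ⟨⟨w', a', c'⟩, ht, h⟩ := List.any_eq_true.1 h
  simp only [Bool.and_eq_true] at h
  obtain ⟨⟨h1, h2⟩, h3⟩ := h
  have h1 := Nat.eq_of_beq_eq_true h1
  have h2 := Nat.eq_of_beq_eq_true h2
  have h3 := Nat.eq_of_beq_eq_true h3
  subst h1 h2 h3
  exact ht

def okLE (lf : List (ℕ × ℕ × ℕ)) (t : ℕ × ℕ × ℕ) : Bool :=
  good t.1 && good t.2.1 && good t.2.2 &&
  (moves 0 t.1).all (fun x => memT lf x t.2.1 t.2.2) &&
  (moves 1 t.2.1).all (fun x => memT lf t.1 x t.2.2) &&
  (moves 1 t.2.2).all (fun x => memT lf t.1 t.2.1 x)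

def okLF (le : List (ℕ × ℕ × ℕ)) (t : ℕ × ℕ × ℕ) : Bool :=
  good t.1 && good t.2.1 && good t.2.2 &&
  ((moves 0 t.2.1).any (fun x => memT le t.1 x t.2.2) ||
  (moves 0 t.2.2).any (fun x => memT le t.1 t.2.1 x) ||
  (moves 1 t.1).any (fun x => memT le x t.2.1 t.2.2))

theorem cert_sound (le lf : List (ℕ × ℕ × ℕ)) (h1 : le.all (okLE lf) = true)
    (h2 : lf.all (okLF le) = true) (n : ℕ) :
    ∀ w a c : ℕ, (toFin w).card + (toFin a).card + (toFin c).card = n →
      ((w, a, c) ∈ le → Le (toFin w, ∅) (toFin a, toFin c)) ∧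
      ((w, a, c) ∈ lf → ¬ Le (toFin a, toFin c) (toFin w, ∅)) := by
  induction n using Nat.strong_induction_on with
  | _ n ih =>
    intro w a c hn
    constructor
    · intro hm
      have hk := List.all_eq_true.1 h1 _ hm
      unfold okLE at hk
      simp only [Bool.and_eq_true, List.all_eq_true] at hk
      obtain ⟨⟨⟨⟨⟨gw, ga⟩, gc⟩, kw⟩, ka⟩, kc⟩ := hk
      rw [Le]
      constructor
      · rintro ⟨P, Q⟩ (⟨hmv, e⟩ | ⟨-, hmv⟩)
        · obtain ⟨y, hy, rfl⟩ := moves_complete gw hmv
          have hlt := hmv.card_lt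
          simp only at e hlt
          subst e
          exact (ih _ (by omega) y a c rfl).2 (memT_iff (kw y hy))
        · exact absurd hmv (not_move_empty _ _)
      · rintro ⟨P, Q⟩ (⟨hmv, e⟩ | ⟨e, hmv⟩)
        · obtain ⟨y, hy, rfl⟩ := moves_complete ga hmv
          have hlt := hmv.card_lt
          simp only at e hlt
          subst e
          exact (ih _ (by omega) w y c rfl).2 (memT_iff (ka y hy))
        · obtain ⟨y, hy, rfl⟩ := moves_complete gc hmv
          have hlt := hmv.card_lt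
          simp only at e hlt
          subst e
          exact (ih _ (by omega) w a y rfl).2 (memT_iff (kc y hy))
    · intro hm
      have hk := List.all_eq_true.1 h2 _ hm
      unfold okLF at hk
      simp only [Bool.and_eq_true, Bool.or_eq_true, List.any_eq_true] at hk
      obtain ⟨⟨⟨gw, ga⟩, gc⟩, hk⟩ := hk
      rw [Le]
      rintro ⟨hL, hR⟩
      rcases hk with (⟨y, hy, hk⟩ | ⟨y, hy, hk⟩) | ⟨y, hy, hk⟩
      · have hmv := moves_sound ga hy
        have hlt := hmv.card_lt
        exact hL (toFin y, toFin c) (Or.inl ⟨hmv, rfl⟩)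
          ((ih _ (by omega) w y c rfl).1 (memT_iff hk))
      · have hmv := moves_sound gc hy
        have hlt := hmv.card_lt
        exact hL (toFin a, toFin y) (Or.inr ⟨rfl, hmv⟩)
          ((ih _ (by omega) w a y rfl).1 (memT_iff hk))
      · have hmv := moves_sound gw hy
        have hlt := hmv.card_lt
        exact hR (toFin y, ∅) (Or.inl ⟨hmv, rfl⟩)
          ((ih _ (by omega) y a c rfl).1 (memT_iff hk))

end Pool.Agent.MP_914aa3_co
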