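import Pool.Agent.MP_914aa3_co.Card

namespace Pool.Agent.MP_914aa3_co

/-- Conway's order on sums of two positions: `G ≤ H` iff no Left option `G'` of `G` has `H ≤ G'`
and no Right option `H'` of `H` has `H' ≤ G`. -/
def Le (G H : Finset ℤ × Finset ℤ) : Prop :=
  (∀ G', SumMove 0 G G' → ¬ Le H G') ∧ (∀ H', SumMove 1 H H' → ¬ Le H' G)
termination_by G.1.card + G.2.card + (H.1.card + H.2.card)
decreasing_by
  · have := SumMove.card_lt ‹SumMove 0 G G'›; omega
  · have := SumMove.card_lt ‹SumMove 1 H H'›; omega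

/-- `S(k, m·, n)` decomposes: the whole position (plus an empty board) equals, in Conway's sense,
the sum of the first two runs and the third run, each kept on its own cells. -/
def Decomposes (k m n : ℕ) : Prop :=
  let A : Finset ℤ := Finset.Icc 1 (k : ℤ) ∪ Finset.Icc ((k : ℤ) + 2) (k + m + 1)
  let C : Finset ℤ := Finset.Icc ((k : ℤ) + m + 4) (k + m + n + 3)
  Le (A ∪ C, ∅) (A, C) ∧ Le (A, C) (A ∪ C, ∅)

end Pool.Agent.MP_914aa3_co
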