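import Pool.Agent.MP_914aa3_co.Cert

open Pool.Agent.MP_914aa3_co

/-- The decomposition conjecture for `S(k, m·, n)` fails: `S(3, 4·, 6)` does not decompose. -/
theorem Pool.Agent.MP_914aa3_co.kept_counterexample :
    ∃ k m n : ℕ, 3 ≤ k ∧ 3 ≤ m ∧ 3 ≤ n ∧
      (¬ ∃ j k' : ℕ, Odd j ∧ k = 2 * j ∧ m = 2 * j ∧ n = 2 * k') ∧ ¬ Decomposes k m n :=
  ⟨3, 4, 6, by norm_num, by norm_num, by norm_num, by rintro ⟨j, k', -, h, -⟩; omega,
    not_decomposes⟩
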