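import Mathlib

namespace Pool.Agent.MP_914aa3_co

/-- A Konane position on the row `ℤ` is the finite set of occupied cells; a stone on an even cell
is black (Left), a stone on an odd cell is white (Right).  `Move par P Q`: a stone on a cell `a`
of parity `par` makes `j ≥ 1` consecutive jumps in direction `d = ±1`, turning `P` into `Q`. -/
def Move (par : ℤ) (P Q : Finset ℤ) : Prop :=
  ∃ a ∈ P, a % 2 = par ∧ ∃ d : ℤ, (d = 1 ∨ d = -1) ∧ ∃ j : ℕ, 1 ≤ j ∧
    (∀ i : ℕ, i < j → a + d * (2 * i + 1) ∈ P ∧ a + d * (2 * i + 2) ∉ P) ∧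
    Q = insert (a + d * (2 * j))
      (P.erase a \ (Finset.range j).image fun i : ℕ => a + d * (2 * i + 1))

/-- A move in the disjoint sum of two positions (two separate boards). -/
def SumMove (par : ℤ) (G H : Finset ℤ × Finset ℤ) : Prop :=
  (Move par G.1 H.1 ∧ H.2 = G.2) ∨ (H.1 = G.1 ∧ Move par G.2 H.2)

end Pool.Agent.MP_914aa3_co
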